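import Pool.Agent.H76.Spr.Final

/-!
# The Kakeya inequality for tubes: all families above `(n + 2) / n`, and families which are spread
at the middle scale in a larger range, which is the full one for `θ = 0`

Statement only uses the definitions of this file.
-/

set_option autoImplicit false

open MeasureTheory ENNReal
open scoped RealInnerProductSpace

namespace Pool.Agent.Results.MP_850839_an.SpreadFamilies

/-- The tube of length `1`, radius `δ`, centre `c` and axis direction `e` in the Euclidean space of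
dimension `n = d + 1`. -/
def tube {d : ℕ} (δ : ℝ) (c e : EuclideanSpace ℝ (Fin (d + 1))) :
    Set (EuclideanSpace ℝ (Fin (d + 1))) :=
  {x | |⟪x - c, e⟫| ≤ 1 / 2 ∧ ‖(x - c) - ⟪x - c, e⟫ • e‖ ≤ δ}

/-- The tube of length `6`, radius `ρ`, centre `c` and axis direction `e`. -/
def fat {d : ℕ} (ρ : ℝ) (c e : EuclideanSpace ℝ (Fin (d + 1))) :
    Set (EuclideanSpace ℝ (Fin (d + 1))) :=
  {x | |⟪x - c, e⟫| ≤ 3 ∧ ‖(x - c) - ⟪x - c, e⟫ • e‖ ≤ ρ}

open Classical in
/-- The number of tubes of the family contained in the fat tube of radius `ρ` about the `i`-th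
tube. -/
noncomputable def cnt {d N : ℕ} (δ ρ : ℝ) (c e : Fin N → EuclideanSpace ℝ (Fin (d + 1)))
    (i : Fin N) : ℕ :=
  (Finset.univ.filter fun j => tube δ (c j) (e j) ⊆ fat ρ (c i) (e i)).card

/-- Let `n = d + 1 ≥ 3`. The inequality of Q1, with no loss in `δ` and with the exact power of the
number `N` of tubes, holds for all families of `δ`-tubes with `δ`-separated orientations such that
each fat tube of radius `N ^ (-1 / (2 (n - 1)))` about a member contains at most `A N ^ θ` members,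
if `q > (n + 2) / n`, and also if `θ < 1 / 2` and `q > 1 + 1 / ((1 - θ) (n - 1))`. -/
theorem result (d : ℕ) (hd : 2 ≤ d) (θ A q : ℝ) (hθ : 0 ≤ θ)
    (hq : ((d : ℝ) + 3) / (d + 1) < q ∨ (θ < 1 / 2 ∧ 1 + 1 / ((1 - θ) * (d : ℝ)) < q)) :
    ∃ C : ℝ, ∀ δ : ℝ, 0 < δ → δ < 1 →
      ∀ (N : ℕ) (c e : Fin N → EuclideanSpace ℝ (Fin (d + 1))),
        (∀ i, ‖e i‖ = 1) → (∀ i j, i ≠ j → δ ≤ ‖e i - e j‖) →
        (∀ i, (cnt δ ((N : ℝ) ^ (-(1 / (2 * (d : ℝ))))) c e i : ℝ) ≤ A * (N : ℝ) ^ θ) →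
        eLpNorm (fun x => ∑ i, (tube δ (c i) (e i)).indicator (fun _ => (1 : ℝ)) x)
          (ENNReal.ofReal q) volume ≤
        ENNReal.ofReal (C * (δ ^ ((d : ℝ) / q) * (N : ℝ) ^ (1 - 1 / (q * d)))) := by
  classical
  have _ := hθ
  have hmu : ∀ (N : ℕ) (δ : ℝ) (c e : Fin N → EuclideanSpace ℝ (Fin (d + 1))),
      (fun x => ∑ i, (tube δ (c i) (e i)).indicator (fun _ => (1 : ℝ)) x) =
        fun x => (Pool.Agent.H53.Kak.mu δ c e Finset.univ x : ℝ) := by
    intro N δ c e
    funext x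
    rw [← Pool.Agent.H53.Kak.sum_indicator_eq]
    rfl
  rcases hq with hq | ⟨hθ2, hq⟩
  · obtain ⟨C, hC⟩ := Pool.Agent.H53.Kak.lossless (d := d) (by omega) hq
    refine ⟨C, ?_⟩
    intro δ hδ hδ1 N c e he1 he2 _
    have h1 := hC δ hδ hδ1 (Fin N) Finset.univ c e
      ⟨fun i _ => he1 i, fun i _ j _ hij => he2 i j hij⟩
    rw [Finset.card_univ, Fintype.card_fin, neg_zero, Real.rpow_zero, mul_one] at h1
    rw [hmu]
    exact h1
  · obtain ⟨C, hC⟩ := Pool.Agent.H76.Spr.spread_strong (d := d) (by omega) (θ := θ) (A := A)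
      hθ2 hq
    refine ⟨C, ?_⟩
    intro δ hδ hδ1 N c e he1 he2 hsp
    have h1 := hC δ hδ hδ1 (Fin N) Finset.univ c e
      ⟨fun i _ => he1 i, fun i _ j _ hij => he2 i j hij⟩
      (by
        rw [Finset.card_univ, Fintype.card_fin]
        intro i _
        refine le_trans (le_of_eq ?_) (hsp i)
        unfold cnt
        congr 2)
    rw [Finset.card_univ, Fintype.card_fin] at h1
    rw [hmu]
    exact h1

end Pool.Agent.Results.MP_850839_an.SpreadFamilies
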